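import Pool.Agent.P8H49.Direct
import Pool.Agent.P8H49.HamListing2

/-!
# Directed closed listing sequences and exchanges along involutions

Example. Let `s` be an element of order at least six of a finite group, let `D` be any set of elements
`u` with `u² = 1`, and let `G` be the group generated by `s` and `D`. Then the Cayley digraph of `G`
with respect to `{s} ∪ {u s : u ∈ D}` has a Hamiltonian directed cycle: take `H = ⟨s⟩` and the sequence
`s, s, s, …`. Equivalently, `S` is a generating set with an element `s` of order at least six such that
`(t s⁻¹)² = 1` for all `t ∈ S`. For two generators this is a theorem of Rankin.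

Idea of the proof. Each left coset of `H` has a translate of the closed listing `w` as a directed cycle.
If `x` and `x u` are in different cycles, with arcs `x → x s` and `x u → x u s'`, then these arcs are
replaced by `x → x u s'` and `x u → x s = x u (u s)`, which joins the two cycles. So it is enough to
link the cosets of `H` by pairwise disjoint pairs `{x, x u}`. This is done by adding the elements of
`D` one by one. If `L` is the group generated by `H` and the elements in use, then the pairs which have
been found for `L` contain or block less than one third of its elements. When `u` is added, one takes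
a spanning tree of maximum degree at most three of the graph of the cosets of `L` in `⟨L, u⟩`. The
at most three elements needed in a coset of `L` are all free for a suitable translate of the pairs of
`L`, by counting.
-/

namespace Pool.Agent.Results.MP_688fd0_co.DirectedExchange

open Pool.Agent.R759.HC Pool.Agent.P8H49.Ham Pool.Agent.P8H49.Match

universe u

/-- `a_1, …, a_n ∈ A`, where `n = |G|`, have pairwise distinct partial products
`a_1, a_1 a_2, …, a_1 ⋯ a_n`, the last of which is `1`. -/
def ClosedListing {G : Type u} [Group G] (A : Set G) (a : Fin (Nat.card G) → G) : Prop :=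
  (∀ i, a i ∈ A) ∧
  Function.Injective (fun k : Fin (Nat.card G) => ((List.ofFn a).take (k.val + 1)).prod) ∧
  (List.ofFn a).prod = 1

/-- The sequence `w` of `|H|` elements of `A ∩ H` has pairwise distinct partial products, the
last of which is `1`; so the partial products run through `H`. -/
def ClosedListingOf {G : Type u} [Group G] (A : Set G) (H : Subgroup G)
    (w : Fin (Nat.card H) → G) : Prop :=
  (∀ i, w i ∈ A ∧ w i ∈ H) ∧
  Function.Injective (fun k : Fin (Nat.card H) => ((List.ofFn w).take (k.val + 1)).prod) ∧
  (List.ofFn w).prod = 1

/-- Let `A` be a subset of the finite group `G`, which need not be symmetric, let `H` be a subgroup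
with a closed listing `w` of `H` along `A`, and let `D` be a set of elements `u` of `G` with `u² = 1`.
Suppose that for at least `2 |H| / 3 + 2` of the indices `i` all products `u w_i` with `u ∈ D` are in
`A`. If `G` is generated by `H` and `D`, then there is a closed listing of `G` along `A`. -/
theorem result {G : Type u} [Group G] [Finite G] (A : Set G) (H : Subgroup G)
    (w : Fin (Nat.card H) → G) (hw : ClosedListingOf A H w) (D : Set G)
    (hD : ∀ u ∈ D, u * u = 1)
    (hcount : 2 * Nat.card H + 6 ≤ 3 * {i | ∀ u ∈ D, u * w i ∈ A}.ncard)
    (hgen : Subgroup.closure ((H : Set G) ∪ D) = ⊤) :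
    ∃ s, ClosedListing A s := by
  obtain ⟨τ, hτ, s, hs, hsH, hτs⟩ := cyc_of_listing_rel A H w hw
  let S' : Set G := {x | ∀ u ∈ D, u * x ∈ A}
  have hcard : {x | x ∈ H ∧ x⁻¹ * τ x ∉ S'}.ncard + {i | w i ∈ S'}.ncard ≤ Nat.card H := by
    set P : Set G := s '' {i | w i ∈ S'} with hP
    have hPt : ∀ x ∈ P, x ∈ H ∧ x⁻¹ * τ x ∈ S' := by
      rintro _ ⟨i, hi, rfl⟩
      refine ⟨hsH i, ?_⟩
      rw [hτs, inv_mul_cancel_left]; exact hi
    have hcP : P.ncard = {i | w i ∈ S'}.ncard := Set.ncard_image_of_injective _ hs
    have hdis : Disjoint {x | x ∈ H ∧ x⁻¹ * τ x ∉ S'} P := by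
      rw [Set.disjoint_left]
      rintro x ⟨_, hx⟩ h
      exact hx (hPt x h).2
    have hsub : {x | x ∈ H ∧ x⁻¹ * τ x ∉ S'} ∪ P ⊆ (H : Set G) := by
      rintro x (h | h)
      · exact h.1
      · exact (hPt x h).1
    have h1 := Set.ncard_le_ncard hsub (Set.toFinite _)
    rw [Set.ncard_union_eq hdis (Set.toFinite _) (Set.toFinite _), hcP] at h1
    exact h1
  have hcount' : 2 * Nat.card H + 6 ≤ 3 * {i | w i ∈ S'}.ncard := hcount
  obtain ⟨σ, hσ⟩ := direct (A := A) (S' := S') (B := D) (H := H) (τ := τ) hD
    (fun u hu x hx => hx u hu) hτ (by omega)
  have e : H ⊔ Subgroup.closure D = ⊤ := by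
    rw [Subgroup.closure_union, Subgroup.closure_eq] at hgen
    exact hgen
  rw [e] at hσ
  exact listing_of_cyc (σ := σ) (by simpa using hσ)

end Pool.Agent.Results.MP_688fd0_co.DirectedExchange
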