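import Pool.Agent.P8H49.HamChain
import Pool.Agent.P8H49.HamListing

/-!
# Closed listing sequences: generators which commute with all but one of the earlier ones

A closed listing of a subgroup of a finite group can be extended by one generator after the other, if
each new generator commutes with all the generators in use with at most one exception, and this
exception is an involution.

Idea of the proof. Let `C` be a closed listing of `K` along `B`, and let `b` commute with all elements
of `B` other than the involution `z`. The two edges of `C` at a vertex `x` are of different type, so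
one of them, `{y, y c}`, has `c ≠ z`, so that `c b = b c`. The square `y, y c, y c b = y b c, y b`
joins the closed listing of the coset `y K` to its translate by `y b y⁻¹`, which is a closed listing
of `y b K`. One adds the cosets of `K` in `⟨K, b⟩` one after the other. The cosets next to `y K` along
`b` belong to different cosets of `K ∩ b K b⁻¹` in `y K`, so that their squares use different edges;
squares along `b` and `b⁻¹` are kept apart by `b² ∈ K`, or by counting edges in the cosets of the
group generated by the elements of `B` which commute with `b`.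
-/

namespace Pool.Agent.Results.MP_688fd0_co.NearlyCommuting

open Pool.Agent.R759.HC Pool.Agent.P8H49.Ham

universe u

/-- `a_1, …, a_n ∈ A`, where `n = |G|`, have pairwise distinct partial products
`a_1, a_1 a_2, …, a_1 ⋯ a_n`, the last of which is `1`. -/
def ClosedListing {G : Type u} [Group G] (A : Set G) (a : Fin (Nat.card G) → G) : Prop :=
  (∀ i, a i ∈ A) ∧
  Function.Injective (fun k : Fin (Nat.card G) => ((List.ofFn a).take (k.val + 1)).prod) ∧
  (List.ofFn a).prod = 1

/-- The sequence `a` of `|H|` elements of `B ∩ H` has pairwise distinct partial products, the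
last of which is `1`; so the partial products run through `H`. -/
def ClosedListingOf {G : Type u} [Group G] (B : Set G) (H : Subgroup G)
    (a : Fin (Nat.card H) → G) : Prop :=
  (∀ i, a i ∈ B ∧ a i ∈ H) ∧
  Function.Injective (fun k : Fin (Nat.card H) => ((List.ofFn a).take (k.val + 1)).prod) ∧
  (List.ofFn a).prod = 1

/-- The elements of `T` together with `s 0, …, s (k - 1)`. -/
def Before {G : Type u} (T : Set G) (s : ℕ → G) (k : ℕ) : Set G :=
  T ∪ {x | ∃ i < k, x = s i}

/-- First, `g` commutes with all elements of `X` different from `z`, for some `z` with `z² = 1`.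
Second, `g` commutes with all elements of `X`, or `g²` is in the group generated by `X`, or the
elements of `X` which commute with `g` generate a group with at least three elements. -/
def NearlyCommutes {G : Type u} [Group G] (X : Set G) (g : G) : Prop :=
  (∃ z, z * z = 1 ∧ ∀ x ∈ X, x ≠ z → x * g = g * x) ∧
  ((∀ x ∈ X, x * g = g * x) ∨ g * g ∈ Subgroup.closure X ∨
    3 ≤ Nat.card (Subgroup.closure {x | x ∈ X ∧ x * g = g * x}))

section proofs

variable {G : Type u} [Group G]

omit [Group G] in
theorem bef_eq (T : Set G) (s : ℕ → G) (k : ℕ) :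
    bef T ((List.range k).map s).reverse = Before T s k := by
  ext x
  simp only [bef, Before, List.mem_reverse, List.mem_map, List.mem_range, Set.mem_ofPred_eq,
    Set.mem_union]
  constructor
  · rintro (h | ⟨i, hi, rfl⟩)
    · exact Or.inl h
    · exact Or.inr ⟨i, hi, rfl⟩
  · rintro (h | ⟨i, hi, rfl⟩)
    · exact Or.inl h
    · exact Or.inr ⟨i, hi, rfl⟩

theorem chainOK_range (T : Set G) (s : ℕ → G) (m : ℕ)
    (h : ∀ k < m, NearlyCommutes (Before T s k) (s k)) :
    ChainOK T ((List.range m).map s).reverse := by
  induction m with
  | zero => trivial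
  | succ m ih =>
    rw [List.range_succ, List.map_append, List.reverse_append]
    refine ⟨?_, ih (fun k hk => h k (by omega))⟩
    change NearlyCommutes (bef T ((List.range m).map s).reverse) (s m)
    rw [bef_eq]
    exact h m (by omega)

variable [Finite G]

/-- the trivial group -/
theorem trivial_case (A : Set G) (hne : A.Nonempty) (h : Nat.card G ≤ 2)
    (hgen : Subgroup.closure A = ⊤) : ∃ a : Fin (Nat.card G) → G, ClosedListing A a := by
  obtain ⟨τ, hτ⟩ := small_cyc hne (by rw [hgen, Subgroup.card_top]; exact h)
  rw [hgen] at hτ
  exact listing_of_cyc (σ := τ) (by simpa using hτ)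

theorem of_chain (A : Set G) (hne : A.Nonempty) (hA : ∀ x ∈ A, x⁻¹ ∈ A) (T : Set G) (hTA : T ⊆ A)
    (hT : ∀ x ∈ T, x⁻¹ ∈ T)
    (hTl : 3 ≤ Nat.card (Subgroup.closure T) →
      ∃ τ : Equiv.Perm G, CycOn T ((Subgroup.closure T : Subgroup G) : Set G) τ)
    (l : List G) (hlA : ∀ x ∈ l, x ∈ A) (hl : ChainOK T l)
    (hgen : Subgroup.closure (bef T l) = ⊤) : ∃ a : Fin (Nat.card G) → G, ClosedListing A a := by
  have hsub : pm T l ⊆ A := by
    rintro x (h | h | h)
    · exact hTA h
    · exact hlA x h
    · have := hA _ (hlA _ h)
      rwa [inv_inv] at this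
  by_cases hb : (bef T l).Nonempty
  · obtain ⟨τ, hτ⟩ := chain hT hTl l hl hb
    rw [hgen] at hτ
    exact listing_of_cyc (cycOn_mono (σ := τ) (by simpa using hτ) hsub)
  · rw [Set.not_nonempty_iff_eq_empty] at hb
    rw [hb, Subgroup.closure_empty] at hgen
    have h1 : Nat.card G ≤ 2 := by
      have h2 : Nat.card (⊥ : Subgroup G) = 1 := Subgroup.card_bot
      rw [hgen, Subgroup.card_top] at h2
      omega
    refine trivial_case A hne h1 ?_
    rw [eq_top_iff, ← hgen]
    exact bot_le

end proofs

/-- Let `A` be a nonempty symmetric subset of the finite group `G`, let `T ⊆ A` be symmetric, with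
a closed listing of `⟨T⟩` along `T` if `⟨T⟩` has at least three elements (`T = ∅` is allowed), and let
`s 0, …, s (m - 1) ∈ A` generate `G` together with `T`, each `s k` nearly commuting with
`T ∪ {s 0, …, s (k - 1)}`. Then there is a closed listing of `G` along `A`. -/
theorem result {G : Type u} [Group G] [Finite G] (A : Set G) (hne : A.Nonempty)
    (hA : ∀ x ∈ A, x⁻¹ ∈ A) (T : Set G) (hTA : T ⊆ A) (hT : ∀ x ∈ T, x⁻¹ ∈ T)
    (hTl : 3 ≤ Nat.card (Subgroup.closure T) → ∃ b, ClosedListingOf T (Subgroup.closure T) b)
    (m : ℕ) (s : ℕ → G) (hs : ∀ k < m, s k ∈ A ∧ NearlyCommutes (Before T s k) (s k))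
    (hgen : Subgroup.closure (Before T s m) = ⊤) : ∃ a, ClosedListing A a := by
  refine of_chain A hne hA T hTA hT ?_ ((List.range m).map s).reverse ?_
    (chainOK_range T s m fun k hk => (hs k hk).2) (by rw [bef_eq]; exact hgen)
  · intro h3
    obtain ⟨b, hb⟩ := hTl h3
    exact cyc_of_listing T _ b hb
  · intro x hx
    rw [List.mem_reverse, List.mem_map] at hx
    obtain ⟨i, hi, rfl⟩ := hx
    exact (hs i (List.mem_range.1 hi)).1

end Pool.Agent.Results.MP_688fd0_co.NearlyCommuting
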