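import Pool.Agent.P8H49.AltTwo

/-!
# Closed listing sequences for groups generated by two sets of commuting elements

Let the finite group `G` be generated by involutions which form two sets `P` and `Q`, the elements of
`P` commuting with each other and the elements of `Q` commuting with each other. Then there is a
Hamiltonian cycle of the Cayley graph of `G` with respect to `P ∪ Q` whose edges are alternately
in `P` and in `Q`. Equivalently, the non-commuting graph of the generating set of involutions is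
bipartite.

Idea of the proof. Suppose that `C` is such a cycle for the subgroup `K` generated by parts `P' ⊆ P`
and `Q' ⊆ Q`, and let `b ∈ P`. At each element `y` of `K` there is an edge `{y, y c}` of `C` with
`c ∈ P'`, so that `c b = b c`. The square `y, y c, y c b = y b c, y b` joins the cycle of the coset
`y K` to its translate by `y b y⁻¹`, which is a cycle of the coset `y b K`; an edge of type `c` is
replaced by one of type `b`, and so the cycle still alternates between `P` and `Q`. One adds the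
cosets of `K` in `⟨K, b⟩` one after the other. The cosets next to `y K` along `b` belong to different
cosets of `K ∩ b K b⁻¹` in `y K`, and each of these contains an edge of type in `P'`, so that their
squares use different edges. Elements `b` with `b² ≠ 1` can be added as well, as soon as the
involutions in use in `P` generate a group with at least three elements.
-/

namespace Pool.Agent.Results.MP_688fd0_co.TwoCommutingSets

open Pool.Agent.R759.HC Pool.Agent.P8H49.Ham

universe u

/-- `a_1, …, a_n ∈ A`, where `n = |G|`, have pairwise distinct partial products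
`a_1, a_1 a_2, …, a_1 ⋯ a_n`, the last of which is `1`. -/
def ClosedListing {G : Type u} [Group G] (A : Set G) (a : Fin (Nat.card G) → G) : Prop :=
  (∀ i, a i ∈ A) ∧
  Function.Injective (fun k : Fin (Nat.card G) => ((List.ofFn a).take (k.val + 1)).prod) ∧
  (List.ofFn a).prod = 1

/-- The elements of `P` and their inverses. -/
def WithInverses {G : Type u} [Group G] (P : Set G) : Set G := {x | x ∈ P ∨ x⁻¹ ∈ P}

/-- Any two cyclically consecutive terms of `a` are one in `X` and one in `Y`. -/
def Alternates {G : Type u} (X Y : Set G) {n : ℕ} (a : Fin n → G) : Prop :=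
  ∀ i j : Fin n, j.val = (i.val + 1) % n → (a i ∈ X ∧ a j ∈ Y) ∨ (a i ∈ Y ∧ a j ∈ X)

/-- All elements of `P` have square `1`, or those elements of `P` which have square `1` generate
a group with at least three elements. -/
def ManyInvolutions {G : Type u} [Group G] (P : Set G) : Prop :=
  (∀ x ∈ P, x * x = 1) ∨ 3 ≤ Nat.card (Subgroup.closure {x | x ∈ P ∧ x * x = 1})

section proofs

variable {G : Type u} [Group G] [Finite G]

omit [Finite G] in
theorem withInverses_subset {A P : Set G} (hA : ∀ x ∈ A, x⁻¹ ∈ A) (hPA : P ⊆ A) :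
    WithInverses P ⊆ A := by
  rintro x (h | h)
  · exact hPA h
  · have := hA _ (hPA h)
    rwa [inv_inv] at this

theorem disjoint_case (A : Set G) (hA : ∀ x ∈ A, x⁻¹ ∈ A) (P Q : Set G) (hPA : P ⊆ A)
    (hQA : Q ⊆ A) (hP : ∀ x ∈ P, ∀ y ∈ P, x * y = y * x) (hQ : ∀ x ∈ Q, ∀ y ∈ Q, x * y = y * x)
    (hgen : Subgroup.closure (P ∪ Q) = ⊤) (p q : G) (hp : p ∈ P) (hp1 : p ≠ 1) (hpp : p * p = 1)
    (hq : q ∈ Q) (hq1 : q ≠ 1) (hqq : q * q = 1) (hdis : ∀ x ∈ P, x ∉ Q ∧ x⁻¹ ∉ Q)
    (hP3 : ManyInvolutions P) (hQ3 : ManyInvolutions Q) :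
    ∃ a, ClosedListing A a ∧ Alternates (WithInverses P) (WithInverses Q) a := by
  obtain ⟨σ, hσ⟩ := two_sets hP hQ hdis hp hp1 hpp hq hq1 hqq hP3 hQ3 hgen
  obtain ⟨a, h1, h2, h3, h4⟩ := alternating_listing hσ
  refine ⟨a, ⟨fun i => ?_, h2, h3⟩, h4⟩
  rcases h1 i with h | h
  · exact withInverses_subset hA hPA h
  · exact withInverses_subset hA hQA h

theorem part_one (A : Set G) (hA : ∀ x ∈ A, x⁻¹ ∈ A) (P Q : Set G) (hPA : P ⊆ A)
    (hQA : Q ⊆ A) (hP : ∀ x ∈ P, ∀ y ∈ P, x * y = y * x) (hQ : ∀ x ∈ Q, ∀ y ∈ Q, x * y = y * x)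
    (hgen : Subgroup.closure (P ∪ Q) = ⊤) (p q : G) (hp : p ∈ P) (hpQ : p ∉ Q) (hp1 : p ≠ 1)
    (hpp : p * p = 1) (hq : q ∈ Q) (hq1 : q ≠ 1) (hqq : q * q = 1)
    (h : (∀ x ∈ P ∪ Q, x * x = 1) ∨
      ((∀ x ∈ P, x ∉ Q ∧ x⁻¹ ∉ Q) ∧ ManyInvolutions P ∧ ManyInvolutions Q)) :
    ∃ a, ClosedListing A a ∧ Alternates (WithInverses P) (WithInverses Q) a := by
  rcases h with h | ⟨h1, h2, h3⟩
  · have hinv : ∀ x ∈ P, x⁻¹ = x := fun x hx => inv_eq_of_mul_eq_one_left (h x (Or.inl hx))
    obtain ⟨a, ha, hb⟩ := disjoint_case A hA (P \ Q) Q (fun x hx => hPA hx.1) hQA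
      (fun x hx y hy => hP x hx.1 y hy.1) hQ (by
        rw [eq_top_iff, ← hgen]
        apply Subgroup.closure_mono
        rintro x (hx | hx)
        · by_cases hxQ : x ∈ Q
          · exact Or.inr hxQ
          · exact Or.inl ⟨hx, hxQ⟩
        · exact Or.inr hx) p q ⟨hp, hpQ⟩ hp1 hpp hq hq1 hqq
      (fun x hx => ⟨hx.2, by rw [hinv x hx.1]; exact hx.2⟩)
      (Or.inl fun x hx => h x (Or.inl hx.1)) (Or.inl fun x hx => h x (Or.inr hx))
    have hsub : WithInverses (P \ Q) ⊆ WithInverses P := by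
      rintro x (hx | hx)
      · exact Or.inl hx.1
      · exact Or.inr hx.1
    refine ⟨a, ha, fun i j hij => ?_⟩
    rcases hb i j hij with ⟨h1, h2⟩ | ⟨h1, h2⟩
    · exact Or.inl ⟨hsub h1, h2⟩
    · exact Or.inr ⟨h1, hsub h2⟩
  · exact disjoint_case A hA P Q hPA hQA hP hQ hgen p q hp hp1 hpp hq hq1 hqq h1 h2 h3

end proofs

/-- Let the finite group `G` be generated by `P ∪ Q`, where the elements of `P` commute with each
other, and the elements of `Q` commute with each other. Let `p ∈ P`, not in `Q`, and `q ∈ Q` be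
elements of order two. Suppose that all elements of `P ∪ Q` have square `1`, or that `P` has no
element in common with `Q` and with the set of the inverses of the elements of `Q`, and that in
both `P` and `Q` either all elements have square `1` or those with square `1` generate a group with
at least three elements. Then for each symmetric `A ⊇ P ∪ Q` there is a closed listing of `G` along
`A` whose terms are alternately in `P ∪ P⁻¹` and in `Q ∪ Q⁻¹`. -/
theorem result {G : Type u} [Group G] [Finite G] (A : Set G) (hA : ∀ x ∈ A, x⁻¹ ∈ A)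
    (P Q : Set G) (hPA : P ⊆ A) (hQA : Q ⊆ A) (hP : ∀ x ∈ P, ∀ y ∈ P, x * y = y * x)
    (hQ : ∀ x ∈ Q, ∀ y ∈ Q, x * y = y * x) (hgen : Subgroup.closure (P ∪ Q) = ⊤)
    (hp : ∃ p ∈ P, p ∉ Q ∧ p ≠ 1 ∧ p * p = 1) (hq : ∃ q ∈ Q, q ≠ 1 ∧ q * q = 1)
    (h : (∀ x ∈ P ∪ Q, x * x = 1) ∨
      ((∀ x ∈ P, x ∉ Q ∧ x⁻¹ ∉ Q) ∧ ManyInvolutions P ∧ ManyInvolutions Q)) :
    ∃ a, ClosedListing A a ∧ Alternates (WithInverses P) (WithInverses Q) a := by
  obtain ⟨p, hp, hpQ, hp1, hpp⟩ := hp
  obtain ⟨q, hq, hq1, hqq⟩ := hq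
  exact part_one A hA P Q hPA hQA hP hQ hgen p q hp hpQ hp1 hpp hq hq1 hqq h

end Pool.Agent.Results.MP_688fd0_co.TwoCommutingSets
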