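import Pool.Agent.P8H49.Hub
import Pool.Agent.P8H49.HamListing2

/-!
# Closed listing sequences when each generator commutes with one of two involutions

Example. Let `a` and `c` be involutions such that `a c` has order at least six, and let `S` be a set of
involutions which contains `a` and `c` and in which each element commutes with `a` or with `c`. Then
the Cayley graph of the group generated by `S` (if finite) has a Hamiltonian cycle: take for `K` the
dihedral group `⟨a, c⟩` with the sequence `a, c, a, c, …`. There is no condition on the relations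
between the other elements of `S`, nor on their number.

Idea of the proof. Let `C` be a closed listing of `K` in which the involution `a` occurs often, and
let the elements `b` of `B` commute with `a` and have squares in `{1, a}`. If the edge `{x, x a}` is in
a cycle and the edge `{x b, x b a}` is in a disjoint cycle, then the square `x, x a, x a b, x b` can be
used to join the two cycles. So it is enough to link the left cosets of `K` in `⟨K, B⟩`, each with a
translate of `C`, by pairwise disjoint links between the pairs `{x, x a}` and `{x b, x b a}`. This is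
done by adding the elements of `B` one by one. If `L` is the group generated by `K` and the elements
in use, then the links which have been found for `L` use or block less than one third of its pairs
`{x, x a}`. When `b` is added, one takes a spanning tree of maximum degree at most three of the graph of
the cosets of `L` in `⟨L, b⟩`. The at most three pairs needed in a coset of `L` are all free for a
suitable translate of the links of `L`, by counting. Only edges of type `a` are removed in this
process, so that it can be repeated with a second involution `c`.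
-/

namespace Pool.Agent.Results.MP_688fd0_co.TwoHubs

open Pool.Agent.R759.HC Pool.Agent.P8H49.Ham Pool.Agent.P8H49.Match

universe u

/-- `a_1, …, a_n ∈ A`, where `n = |G|`, have pairwise distinct partial products
`a_1, a_1 a_2, …, a_1 ⋯ a_n`, the last of which is `1`. -/
def ClosedListing {G : Type u} [Group G] (A : Set G) (a : Fin (Nat.card G) → G) : Prop :=
  (∀ i, a i ∈ A) ∧
  Function.Injective (fun k : Fin (Nat.card G) => ((List.ofFn a).take (k.val + 1)).prod) ∧
  (List.ofFn a).prod = 1

/-- The sequence `w` of `|K|` elements of `A ∩ K` has pairwise distinct partial products, the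
last of which is `1`; so the partial products run through `K`. -/
def ClosedListingOf {G : Type u} [Group G] (A : Set G) (K : Subgroup G)
    (w : Fin (Nat.card K) → G) : Prop :=
  (∀ i, w i ∈ A ∧ w i ∈ K) ∧
  Function.Injective (fun k : Fin (Nat.card K) => ((List.ofFn w).take (k.val + 1)).prod) ∧
  (List.ofFn w).prod = 1

/-- The element `a` has order two, at least `|K| / 3 + 2` terms of the sequence `w` of `|K|` elements
are equal to `a`, and each element of `B` commutes with `a` and has square `1` or `a`. -/
def Hub {G : Type u} [Group G] (K : Subgroup G) (w : Fin (Nat.card K) → G) (a : G)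
    (B : Set G) : Prop :=
  a * a = 1 ∧ a ≠ 1 ∧ Nat.card K + 6 ≤ 3 * {i | w i = a}.ncard ∧
    ∀ b ∈ B, b * a = a * b ∧ (b * b = 1 ∨ b * b = a)

section proofs

variable {G : Type u} [Group G] [Finite G]

theorem count_hasE {A : Set G} {K : Subgroup G} {τ : Equiv.Perm G} (hτ : CycOn A (K : Set G) τ)
    (h3 : 3 ≤ Nat.card K) {w s : Fin (Nat.card K) → G} (hs : Function.Injective s)
    (hsK : ∀ k, s k ∈ K) (hτs : ∀ k, τ (s k) = s k * w k) {a : G} (ha : a * a = 1) :
    {x | x ∈ K ∧ ¬ HasE {a} τ x}.ncard + 2 * {i | w i = a}.ncard ≤ Nat.card K := by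
  have ha' : a⁻¹ = a := inv_eq_of_mul_eq_one_left ha
  set P : Set G := s '' {i | w i = a} with hP
  set Q : Set G := (fun x => x * a) '' P with hQ
  have hPt : ∀ x ∈ P, x ∈ K ∧ τ x = x * a := by
    rintro _ ⟨i, hi, rfl⟩
    have hi' : w i = a := hi
    exact ⟨hsK i, by rw [hτs, hi']⟩
  have hPE : ∀ x ∈ P, x ∈ K ∧ HasE {a} τ x := by
    intro x hx
    obtain ⟨h1, h2⟩ := hPt x hx
    refine ⟨h1, Or.inl ?_⟩
    rw [h2, inv_mul_cancel_left]; rfl
  have hQE : ∀ x ∈ Q, x ∈ K ∧ HasE {a} τ x := by
    rintro _ ⟨x, hx, rfl⟩
    obtain ⟨h1, h2⟩ := hPt x hx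
    refine ⟨?_, Or.inr ⟨a, rfl, ?_⟩⟩
    · have := hτ.maps x h1
      rw [h2] at this
      exact this
    · change τ (x * a * a) = x * a
      rw [mul_assoc, ha, mul_one, h2]
  have hdis : Disjoint P Q := by
    rw [Set.disjoint_left]
    rintro x hx ⟨y, hy, hyx⟩
    obtain ⟨hxK, h1⟩ := hPt x hx
    obtain ⟨hyK, h2⟩ := hPt y hy
    have h4 : x * a = y := by
      have : y * a = x := hyx
      rw [← this, mul_assoc, ha, mul_one]
    have h5 : τ x = τ⁻¹ x := by
      have h6 : τ y = x := by rw [h2]; exact hyx
      rw [h1, h4, ← h6, pinv2]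
    have h6 := cyc_two hτ hxK h5
    refine coset_three K h3 1 x (τ x) (fun v hv => h6 v ?_)
    simpa using hv
  have hcP : P.ncard = {i | w i = a}.ncard := Set.ncard_image_of_injective _ hs
  have hcQ : Q.ncard = P.ncard := Set.ncard_image_of_injective _ (mul_left_injective a)
  have hdis2 : Disjoint {x | x ∈ K ∧ ¬ HasE {a} τ x} (P ∪ Q) := by
    rw [Set.disjoint_left]
    rintro x ⟨_, hx⟩ (h | h)
    · exact hx (hPE x h).2
    · exact hx (hQE x h).2
  have hsub : {x | x ∈ K ∧ ¬ HasE {a} τ x} ∪ (P ∪ Q) ⊆ (K : Set G) := by
    rintro x (h | h | h)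
    · exact h.1
    · exact (hPE x h).1
    · exact (hQE x h).1
  have h1 := Set.ncard_le_ncard hsub (Set.toFinite _)
  rw [Set.ncard_union_eq hdis2 (Set.toFinite _) (Set.toFinite _),
    Set.ncard_union_eq hdis (Set.toFinite _) (Set.toFinite _), hcQ, hcP] at h1
  have h2 : (K : Set G).ncard = Nat.card K := rfl
  omega

end proofs

/-- Let `A` be a symmetric subset of the finite group `G`, let `K` be a subgroup of `G` with a closed
listing `w` of `K` along `A`, let `a` be an element of order two which occurs at least `|K| / 3 + 2`
times in `w`, and let `B ⊆ A` consist of elements which commute with `a` and have square `1` or `a`. Let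
`c ≠ a` be a second such element and `B' ⊆ A` a set of elements which commute with `c` and have square
`1` or `c`, or let `B'` be empty. If `G` is generated by `K`, `B` and `B'`, then there is a closed listing
of `G` along `A`. -/
theorem result {G : Type u} [Group G] [Finite G] (A : Set G) (hA : ∀ x ∈ A, x⁻¹ ∈ A)
    (K : Subgroup G) (w : Fin (Nat.card K) → G) (hw : ClosedListingOf A K w) (a c : G)
    (B B' : Set G) (hBA : B ⊆ A) (hBA' : B' ⊆ A) (ha : Hub K w a B)
    (hc : B' = ∅ ∨ (c ≠ a ∧ Hub K w c B'))
    (hgen : Subgroup.closure ((K : Set G) ∪ B ∪ B') = ⊤) :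
    ∃ s, ClosedListing A s := by
  obtain ⟨haa, ha1, hna, hB⟩ := ha
  obtain ⟨τ, hτ, s, hs, hsK, hτs⟩ := cyc_of_listing_rel A K w hw
  have hle : ∀ x : G, {i | w i = x}.ncard ≤ Nat.card K := by
    intro x
    have h1 := Set.ncard_le_card (s := {i : Fin (Nat.card K) | w i = x})
    simpa using h1
  have h3 : 3 ≤ Nat.card K := by
    have := hle a
    omega
  have hmem : ∀ x : G, Nat.card K + 6 ≤ 3 * {i | w i = x}.ncard → x ∈ K := by
    intro x hx
    have hne : {i | w i = x}.Nonempty := by
      rw [← Set.ncard_pos]
      omega
    obtain ⟨i, hi⟩ := hne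
    have hi' : w i = x := hi
    rw [← hi']
    exact (hw.1 i).2
  have hcount : ∀ x : G, x * x = 1 → Nat.card K + 6 ≤ 3 * {i | w i = x}.ncard →
      3 * ({y | y ∈ K ∧ ¬ HasE {x} τ y}.ncard + 4) ≤ Nat.card K := by
    intro x hxx hx
    have := count_hasE hτ h3 hs hsK hτs hxx
    omega
  have hsup : ∀ B B' : Set G, Subgroup.closure ((K : Set G) ∪ B ∪ B') =
      K ⊔ Subgroup.closure B ⊔ Subgroup.closure B' := by
    intro B B'
    rw [Subgroup.closure_union, Subgroup.closure_union, Subgroup.closure_eq]
  rcases hc with hc | ⟨hca, hcc, hc1, hnc, hB'⟩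
  · obtain ⟨σ, hσ, _⟩ := hub hA (hmem a hna) haa ha1 hτ hBA hB (hcount a haa hna)
    rw [hc, hsup, Subgroup.closure_empty, sup_bot_eq] at hgen
    rw [hgen] at hσ
    exact listing_of_cyc (σ := σ) (by simpa using hσ)
  · obtain ⟨σ, hσ⟩ := two_hubs hA (hmem a hna) haa ha1 (hmem c hnc) hcc hc1
      (fun h => hca h.symm) hτ hBA hB (hcount a haa hna) hBA' hB' (hcount c hcc hnc)
    rw [hsup] at hgen
    rw [hgen] at hσ
    exact listing_of_cyc (σ := σ) (by simpa using hσ)

end Pool.Agent.Results.MP_688fd0_co.TwoHubs
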